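import Pool.Agent.helper95.PY2.Spec

/-!
# Project py2 (MP_f6e9a2_nt), row PAR: the Fourier expansion of `FF` and Parseval
-/

set_option autoImplicit false

open Finset

namespace Pool.Agent.PY2

private theorem PAR_add {p : ℕ} [NeZero p] (x y : ZMod p) : ps (x + y) = ps x * ps y := by
  unfold ps
  exact AddChar.map_add_eq_mul _ x y

private theorem PAR_zero {p : ℕ} [NeZero p] : ps (0 : ZMod p) = 1 := by
  unfold ps
  exact AddChar.map_zero_eq_one _

private theorem PAR_conj {p : ℕ} [NeZero p] (x : ZMod p) :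
    (starRingEnd ℂ) (ps x) = ps (-x) := by
  unfold ps
  exact (AddChar.map_neg_eq_conj _ x).symm

private theorem PAR_sum {p : ℕ} [Fact p.Prime] (b : ZMod p) :
    ∑ y : ZMod p, ps (b * y) = if b = 0 then (p : ℂ) else 0 := by
  have h := AddChar.sum_mulShift (R := ZMod p) (R' := ℂ) b (ZMod.isPrimitive_stdAddChar p)
  rw [ZMod.card] at h
  have h2 : ∑ y : ZMod p, ps (b * y) = ∑ x : ZMod p, ZMod.stdAddChar (x * b) := by
    refine sum_congr rfl fun y _ => ?_
    unfold ps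
    rw [mul_comm]
  rw [h2, h]
  split_ifs <;> simp

/-- the square of the geometric sum -/
private theorem PAR_sq {p : ℕ} [NeZero p] (R : ℕ) (y : ZMod p) :
    ((‖∑ r ∈ range R, ps ((r : ZMod p) * y)‖ ^ 2 : ℝ) : ℂ) =
      ∑ f ∈ Ioo (-(R : ℤ)) R,
        ((((range R ×ˢ range R).filter fun z : ℕ × ℕ => (z.1 : ℤ) - z.2 = f).card : ℕ) : ℂ) *
          ps ((f : ZMod p) * y) := by
  have h1 : ((‖∑ r ∈ range R, ps ((r : ZMod p) * y)‖ ^ 2 : ℝ) : ℂ) =
      (∑ r ∈ range R, ps ((r : ZMod p) * y)) *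
        (starRingEnd ℂ) (∑ r ∈ range R, ps ((r : ZMod p) * y)) := by
    rw [Complex.mul_conj, Complex.normSq_eq_norm_sq]
  rw [h1, map_sum, sum_mul_sum, ← sum_product']
  have h2 : ∀ z ∈ range R ×ˢ range R,
      ps ((z.1 : ZMod p) * y) * (starRingEnd ℂ) (ps ((z.2 : ZMod p) * y)) =
        ps ((((z.1 : ℤ) - z.2 : ℤ) : ZMod p) * y) := by
    intro z _
    rw [PAR_conj, ← PAR_add]
    congr 1
    push_cast
    ring
  rw [sum_congr rfl h2]
  have h3 : ∀ z ∈ range R ×ˢ range R, ((z.1 : ℤ) - z.2) ∈ Ioo (-(R : ℤ)) R := by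
    intro z hz
    rw [mem_product, mem_range, mem_range] at hz
    rw [mem_Ioo]
    constructor <;> omega
  rw [← sum_fiberwise_of_maps_to h3]
  refine sum_congr rfl fun f _ => ?_
  have h4 : ∀ z ∈ (range R ×ˢ range R).filter (fun z : ℕ × ℕ => (z.1 : ℤ) - z.2 = f),
      ps ((((z.1 : ℤ) - z.2 : ℤ) : ZMod p) * y) = ps ((f : ZMod p) * y) := by
    intro z hz
    rw [(mem_filter.1 hz).2]
  rw [sum_congr rfl h4, sum_const, nsmul_eq_mul]

/-- Parseval -/
private theorem PAR_parseval {p : ℕ} [Fact p.Prime] (R : ℕ) (hR : 2 * R ≤ p) (a : ℤ → ℂ) :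
    ∑ y : ZMod p, (∑ f ∈ Ioo (-(R : ℤ)) R, a f * ps ((f : ZMod p) * y)) *
      (starRingEnd ℂ) (∑ f ∈ Ioo (-(R : ℤ)) R, a f * ps ((f : ZMod p) * y)) =
    (p : ℂ) * ∑ f ∈ Ioo (-(R : ℤ)) R, a f * (starRingEnd ℂ) (a f) := by
  have h1 : ∀ y : ZMod p, (∑ f ∈ Ioo (-(R : ℤ)) R, a f * ps ((f : ZMod p) * y)) *
      (starRingEnd ℂ) (∑ f ∈ Ioo (-(R : ℤ)) R, a f * ps ((f : ZMod p) * y)) =
      ∑ f ∈ Ioo (-(R : ℤ)) R, ∑ g ∈ Ioo (-(R : ℤ)) R,
        a f * (starRingEnd ℂ) (a g) * ps (((f : ZMod p) - (g : ZMod p)) * y) := by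
    intro y
    rw [map_sum, sum_mul_sum]
    refine sum_congr rfl fun f _ => sum_congr rfl fun g _ => ?_
    rw [map_mul, PAR_conj]
    have h2 : ps (((f : ZMod p) - (g : ZMod p)) * y) = ps ((f : ZMod p) * y) *
        ps (-((g : ZMod p) * y)) := by
      rw [← PAR_add]
      congr 1
      ring
    rw [h2]
    ring
  rw [sum_congr rfl fun y _ => h1 y, sum_comm, mul_sum]
  refine sum_congr rfl fun f hf => ?_
  rw [sum_comm]
  have h3 : ∀ g ∈ Ioo (-(R : ℤ)) R, ∑ y : ZMod p,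
      a f * (starRingEnd ℂ) (a g) * ps (((f : ZMod p) - (g : ZMod p)) * y) =
      if g = f then (p : ℂ) * (a f * (starRingEnd ℂ) (a g)) else 0 := by
    intro g hg
    rw [← mul_sum, PAR_sum]
    rw [mem_Ioo] at hf hg
    by_cases hfg : g = f
    · rw [if_pos hfg, if_pos (by rw [hfg, sub_self])]
      ring
    · rw [if_neg hfg, if_neg, mul_zero]
      intro h
      apply hfg
      have h4 : ((f - g : ℤ) : ZMod p) = 0 := by
        push_cast
        exact h
      rw [ZMod.intCast_zmod_eq_zero_iff_dvd] at h4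
      have h5 : |f - g| < (p : ℤ) := by
        rw [abs_lt]
        constructor <;> omega
      have h6 := Int.eq_zero_of_abs_lt_dvd h4 h5
      omega
  rw [sum_congr rfl h3, sum_ite_eq' (Ioo (-(R : ℤ)) R) f
    (fun g => (p : ℂ) * (a f * (starRingEnd ℂ) (a g))), if_pos hf]

/-- **PAR** -/
theorem PAR : PAR_stmt := by
  intro p _ L R h B _ hR hRp
  set cR : ℤ → ℂ := fun f =>
    ((((range R ×ˢ range R).filter fun z : ℕ × ℕ => (z.1 : ℤ) - z.2 = f).card : ℕ) : ℂ) with hcR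
  set a : ℤ → ℂ := fun f => (4 / (R : ℂ) ^ 2) * cR f *
    ∑ j ∈ range (p / L + 1), (rho B L j h : ℂ) * ps (-((f : ZMod p) * ((j * L : ℕ) : ZMod p)))
    with ha
  have hRc : (R : ℂ) ≠ 0 := by
    have : R ≠ 0 := by omega
    exact_mod_cast this
  have hF : ∀ y : ZMod p, ((FF B L R h y : ℝ) : ℂ) =
      ∑ f ∈ Ioo (-(R : ℤ)) R, a f * ps ((f : ZMod p) * y) := by
    intro y
    unfold FF
    rw [Complex.ofReal_sum]
    have h1 : ∀ j ∈ range (p / L + 1),
        ((rho B L j h * wf R (y - ((j * L : ℕ) : ZMod p)) : ℝ) : ℂ) =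
        ∑ f ∈ Ioo (-(R : ℤ)) R, (4 / (R : ℂ) ^ 2) * cR f *
          ((rho B L j h : ℂ) * ps (-((f : ZMod p) * ((j * L : ℕ) : ZMod p)))) *
            ps ((f : ZMod p) * y) := by
      intro j _
      have h2 : ((wf R (y - ((j * L : ℕ) : ZMod p)) : ℝ) : ℂ) = (4 / (R : ℂ) ^ 2) *
          ∑ f ∈ Ioo (-(R : ℤ)) R, cR f * ps ((f : ZMod p) * (y - ((j * L : ℕ) : ZMod p))) := by
        unfold wf
        rw [Complex.ofReal_mul, PAR_sq]
        push_cast
        rfl
      rw [Complex.ofReal_mul, h2, mul_sum, mul_sum]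
      refine sum_congr rfl fun f _ => ?_
      have h3 : ps ((f : ZMod p) * (y - ((j * L : ℕ) : ZMod p))) =
          ps (-((f : ZMod p) * ((j * L : ℕ) : ZMod p))) * ps ((f : ZMod p) * y) := by
        rw [← PAR_add]
        congr 1
        ring
      rw [h3]
      ring
    rw [sum_congr rfl h1, sum_comm]
    refine sum_congr rfl fun f _ => ?_
    rw [← sum_mul, ← mul_sum]
  refine ⟨a, hF, ?_, ?_⟩
  · have h1 : cR 0 = (R : ℂ) := by
      have h2 : ((range R ×ˢ range R).filter fun z : ℕ × ℕ => (z.1 : ℤ) - z.2 = 0) =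
          (range R).image fun r => (r, r) := by
        ext z
        rw [mem_filter, mem_product, mem_range, mem_range, mem_image]
        constructor
        · rintro ⟨⟨h3, _⟩, h5⟩
          refine ⟨z.1, mem_range.2 h3, ?_⟩
          have h6 : z.1 = z.2 := by omega
          exact Prod.ext rfl h6
        · rintro ⟨r, hr, rfl⟩
          rw [mem_range] at hr
          exact ⟨⟨hr, hr⟩, sub_self _⟩
      have h3 : ((range R).image fun r => (r, r)).card = R := by
        rw [card_image_of_injective _ (fun r s hrs => (Prod.mk.inj hrs).1), card_range]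
      show ((((range R ×ˢ range R).filter fun z : ℕ × ℕ => (z.1 : ℤ) - z.2 = 0).card : ℕ) : ℂ) = R
      rw [h2, h3]
    show (4 / (R : ℂ) ^ 2) * cR 0 * ∑ j ∈ range (p / L + 1), (rho B L j h : ℂ) *
      ps (-(((0 : ℤ) : ZMod p) * ((j * L : ℕ) : ZMod p))) = _
    rw [h1]
    have h4 : ∑ j ∈ range (p / L + 1), (rho B L j h : ℂ) *
        ps (-(((0 : ℤ) : ZMod p) * ((j * L : ℕ) : ZMod p))) =
        ((∑ j ∈ range (p / L + 1), rho B L j h : ℝ) : ℂ) := by
      rw [Complex.ofReal_sum]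
      refine sum_congr rfl fun j _ => ?_
      rw [Int.cast_zero, zero_mul, neg_zero, PAR_zero, mul_one]
    rw [h4]
    push_cast
    field_simp
  · have h1 := PAR_parseval R hRp a
    have h2 : ∀ y : ZMod p, (∑ f ∈ Ioo (-(R : ℤ)) R, a f * ps ((f : ZMod p) * y)) *
        (starRingEnd ℂ) (∑ f ∈ Ioo (-(R : ℤ)) R, a f * ps ((f : ZMod p) * y)) =
        ((FF B L R h y ^ 2 : ℝ) : ℂ) := by
      intro y
      rw [← hF y, Complex.conj_ofReal]
      push_cast
      ring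
    rw [sum_congr rfl fun y _ => h2 y, ← Complex.ofReal_sum] at h1
    have h3 : ∀ f, a f * (starRingEnd ℂ) (a f) = ((‖a f‖ ^ 2 : ℝ) : ℂ) := by
      intro f
      rw [Complex.mul_conj, Complex.normSq_eq_norm_sq]
    rw [sum_congr rfl fun f _ => h3 f, ← Complex.ofReal_sum] at h1
    have h4 : ((∑ y : ZMod p, FF B L R h y ^ 2 : ℝ) : ℂ) =
        (((p : ℝ) * ∑ f ∈ Ioo (-(R : ℤ)) R, ‖a f‖ ^ 2 : ℝ) : ℂ) := by
      rw [h1]
      push_cast
      rfl
    exact (Complex.ofReal_injective h4).symm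

end Pool.Agent.PY2
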